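import Pool.Agent.D0H39.NG.Stm

set_option autoImplicit false

open Set Filter Topology Metric Function
open scoped ContDiff RealInnerProductSpace NNReal

namespace Pool.Agent.D0H70.NG

open Pool.Agent.D0H39.NG

theorem t_CONT : S_CONT := by
  intro m k Λ f hΛ hf z hz
  obtain ⟨F, hF, hF0⟩ := hΛ z hz
  have hmem : ∀ s, F s ∈ Λ := by
    intro s
    obtain ⟨U', -, hU'⟩ := hF.isOpen univ isOpen_univ
    have : F s ∈ F '' univ := ⟨s, mem_univ _, rfl⟩
    rw [hU'] at this
    exact this.1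
  have hFd : ∀ s, HasFDerivAt F (fderiv ℝ F s) s := fun s =>
    (hF.smooth.differentiable (by simp)).differentiableAt.hasFDerivAt
  have hd : ∀ (v : E k) (t : ℝ), HasDerivAt (fun t : ℝ => f (F (t • v)))
      ⟪(F (t • v)).2, (fderiv ℝ F (t • v) v).1⟫ t := by
    intro v t
    have h1 : ContDiffAt ℝ ∞ (fun t : ℝ => F (t • v)) t := by
      have : ContDiff ℝ ∞ (fun t : ℝ => F (t • v)) := hF.smooth.comp (by fun_prop)
      exact this.contDiffAt
    have h2 := hf (fun t : ℝ => F (t • v)) t h1 (Eventually.of_forall fun t => hmem _)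
    have h3 : HasDerivAt (fun t : ℝ => F (t • v)) (fderiv ℝ F (t • v) v) t := by
      have h4 : HasDerivAt (fun t : ℝ => t • v) v t := by
        simpa using (hasDerivAt_id t).smul_const v
      exact (hFd (t • v)).comp_hasDerivAt t h4
    rw [h3.deriv] at h2
    exact h2
  have hG : Continuous (fun s => ‖(F s).2‖ * ‖fderiv ℝ F s‖) := by
    have h1 : Continuous F := hF.smooth.continuous
    have h2 : Continuous (fderiv ℝ F) := hF.smooth.continuous_fderiv (by simp)
    fun_prop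
  obtain ⟨C, hC⟩ : ∃ C, C = ‖(F 0).2‖ * ‖fderiv ℝ F 0‖ + 1 := ⟨_, rfl⟩
  have hC0 : 0 < C := by rw [hC]; positivity
  have h1 : ∀ᶠ s in 𝓝 (0 : E k), ‖(F s).2‖ * ‖fderiv ℝ F s‖ < C :=
    (hG.tendsto 0).eventually_lt_const (by rw [hC]; linarith)
  obtain ⟨r, hr, hb⟩ := Metric.eventually_nhds_iff.mp h1
  have hlip : ∀ s : E k, ‖s‖ < r → |f (F s) - f z| ≤ C * ‖s‖ := by
    intro s hs
    have h2 := norm_image_sub_le_of_norm_deriv_le_segment_01'
      (f := fun t : ℝ => f (F (t • s))) (f' := fun t => ⟪(F (t • s)).2, (fderiv ℝ F (t • s) s).1⟫)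
      (C := C * ‖s‖) (fun t _ => (hd s t).hasDerivWithinAt) (by
        intro t ht
        have h3 : ‖t • s‖ < r := by
          rw [norm_smul, Real.norm_eq_abs, abs_of_nonneg ht.1]
          nlinarith [norm_nonneg s, ht.2]
        have h4 := @hb (t • s) (by rwa [dist_zero_right])
        calc ‖⟪(F (t • s)).2, (fderiv ℝ F (t • s) s).1⟫‖
            ≤ ‖(F (t • s)).2‖ * ‖(fderiv ℝ F (t • s) s).1‖ := norm_inner_le_norm _ _
          _ ≤ ‖(F (t • s)).2‖ * (‖fderiv ℝ F (t • s)‖ * ‖s‖) := by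
              gcongr
              exact (norm_fst_le _).trans (ContinuousLinearMap.le_opNorm _ _)
          _ = (‖(F (t • s)).2‖ * ‖fderiv ℝ F (t • s)‖) * ‖s‖ := by ring
          _ ≤ C * ‖s‖ := by gcongr)
    simpa [hF0] using h2
  rw [ContinuousWithinAt, Metric.tendsto_nhdsWithin_nhds]
  intro ε hε
  obtain ⟨U', hU'o, hU'⟩ := hF.isOpen (ball 0 (min r (ε / C))) isOpen_ball
  have hz' : z ∈ U' := by
    have : F 0 ∈ F '' (ball 0 (min r (ε / C))) :=
      ⟨0, mem_ball_self (lt_min hr (by positivity)), rfl⟩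
    rw [hU', hF0] at this
    exact this.2
  obtain ⟨δ, hδ, hball⟩ := Metric.isOpen_iff.mp hU'o z hz'
  refine ⟨δ, hδ, ?_⟩
  intro w hw hwd
  have h5 : w ∈ F '' (ball 0 (min r (ε / C))) := by
    rw [hU']; exact ⟨hw, hball hwd⟩
  obtain ⟨s, hs, rfl⟩ := h5
  rw [mem_ball_zero_iff, lt_min_iff, lt_div_iff₀ hC0] at hs
  rw [Real.dist_eq]
  calc |f (F s) - f z| ≤ C * ‖s‖ := hlip s hs.1
    _ < ε := by linarith [hs.2]

end Pool.Agent.D0H70.NG
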