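import Pool.Agent.D0H39.NG.Stm

set_option autoImplicit false
set_option maxSynthPendingDepth 3

open Set Filter Topology Metric Function
open scoped ContDiff RealInnerProductSpace NNReal

namespace Pool.Agent.D0H70.NG

open Pool.Agent.D0H39.NG

theorem Hp_congr {m : ℕ} {H K : E m × E m → ℝ} {U : Set (E m × E m)} (hU : IsOpen U)
    (h : ∀ y ∈ U, H y = K y) {w : E m × E m} (hw : w ∈ U) (u v : E m) : Hp H w u v = Hp K w u v := by
  unfold Hp
  have h1 : (fun y => fderiv ℝ H y ((0 : E m), u)) =ᶠ[𝓝 w] fun y => fderiv ℝ K y ((0 : E m), u) := by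
    filter_upwards [hU.mem_nhds hw] with y hy
    have h2 : H =ᶠ[𝓝 y] K := by
      filter_upwards [hU.mem_nhds hy] with x hx
      exact h x hx
    rw [h2.fderiv_eq]
  rw [h1.fderiv_eq]

theorem t_CUT : S_CUT := by
  intro m k N Λ K hΛ hK
  obtain ⟨R, hR⟩ := hΛ.compact.isBounded.subset_ball (0 : E m × E m)
  have hR0 : 0 < R := by
    obtain ⟨z, hz⟩ := hΛ.nonempty
    exact pos_of_mem_ball (hR hz)
  let χ : ContDiffBump (0 : E m × E m) := ⟨R, R + 1, hR0, by linarith⟩
  have hone : ∀ y ∈ ball (0 : E m × E m) R, χ y * K y = K y := by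
    intro y hy
    rw [χ.one_of_mem_closedBall (ball_subset_closedBall hy), one_mul]
  refine ⟨fun y => χ y * K y, χ.hasCompactSupport.mul_right, ⟨χ.contDiff.mul hK.smooth, ?_⟩⟩
  intro z hz hv
  obtain ⟨C, r, hr, h1, h2⟩ := hK.cond z hz hv
  refine ⟨C, r, hr, ?_, ?_⟩
  · intro w hw hwr a ha
    rw [Hp_congr isOpen_ball hone (hR hw)]
    exact h1 w hw hwr a ha
  · intro a ha hb
    refine h2 a ha fun b hbt => ?_
    rw [← Hp_congr isOpen_ball hone (hR hz)]
    exact hb b hbt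

end Pool.Agent.D0H70.NG
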