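import Pool.Agent.D0H39.NG.Bas

set_option autoImplicit false
set_option maxSynthPendingDepth 3

open Set Filter Topology Metric Function
open scoped ContDiff RealInnerProductSpace NNReal

namespace Pool.Agent.D0H70.NG

open Pool.Agent.D0H39.NG

theorem two_le_infty : (2 : WithTop ℕ∞) ≤ ∞ := ENat.LEInfty.out

theorem surf_deriv {m : ℕ} (Γ : ℝ × ℝ → E m × E m) (hΓ : ContDiff ℝ ∞ Γ) (y0 v w : ℝ × ℝ) :
    fderiv ℝ (fun y => (⟪(Γ y).2, (fderiv ℝ Γ y v).1⟫ : ℝ)) y0 w =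
      ⟪(Γ y0).2, (fderiv ℝ (fderiv ℝ Γ) y0 w v).1⟫ +
        ⟪(fderiv ℝ Γ y0 w).2, (fderiv ℝ Γ y0 v).1⟫ := by
  have h1 : HasFDerivAt Γ (fderiv ℝ Γ y0) y0 :=
    (hΓ.differentiable (by simp)).differentiableAt.hasFDerivAt
  have h2 : HasFDerivAt (fderiv ℝ Γ) (fderiv ℝ (fderiv ℝ Γ) y0) y0 := by
    have h3 : ContDiff ℝ ∞ (fderiv ℝ Γ) := hΓ.fderiv_right (m := ∞) (by simp)
    exact (h3.differentiable (by simp)).differentiableAt.hasFDerivAt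
  have h4 : HasFDerivAt (fun y => (Γ y).2) _ y0 := h1.snd
  have h5 : HasFDerivAt (fun y => (fderiv ℝ Γ y v).1) _ y0 :=
    (h2.clm_apply (hasFDerivAt_const v y0)).fst
  have h6 := (h4.inner ℝ h5).fderiv
  rw [h6]
  simp

theorem surf_om {m : ℕ} (Γ : ℝ × ℝ → E m × E m) (hΓ : ContDiff ℝ ∞ Γ) (y0 v w : ℝ × ℝ) :
    fderiv ℝ (fun y => (⟪(Γ y).2, (fderiv ℝ Γ y v).1⟫ : ℝ)) y0 w -
      fderiv ℝ (fun y => (⟪(Γ y).2, (fderiv ℝ Γ y w).1⟫ : ℝ)) y0 v =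
      om (fderiv ℝ Γ y0 w) (fderiv ℝ Γ y0 v) := by
  rw [surf_deriv Γ hΓ, surf_deriv Γ hΓ]
  have hsym : fderiv ℝ (fderiv ℝ Γ) y0 w v = fderiv ℝ (fderiv ℝ Γ) y0 v w :=
    (hΓ.contDiffAt.isSymmSndFDerivAt (by simpa using two_le_infty)) w v
  rw [hsym, om]
  ring

theorem surf_diff {m : ℕ} (Γ : ℝ × ℝ → E m × E m) (hΓ : ContDiff ℝ ∞ Γ) (v : ℝ × ℝ) :
    Differentiable ℝ (fun y => (⟪(Γ y).2, (fderiv ℝ Γ y v).1⟫ : ℝ)) := by
  have h3 : ContDiff ℝ ∞ (fderiv ℝ Γ) := hΓ.fderiv_right (m := ∞) (by simp)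
  have h4 : ContDiff ℝ ∞ (fun y => (⟪(Γ y).2, (fderiv ℝ Γ y v).1⟫ : ℝ)) :=
    ContDiff.inner ℝ (by fun_prop) (by fun_prop)
  exact h4.differentiable (by simp)

theorem t_OM : S_SURF → S_OM := by
  intro hsurf m k N P Φ η hN hm hP hΦ hη hform z hz a b ha hb
  obtain ⟨γ, hγ, hγN, hγ0, hγa, hγb⟩ := hsurf m k N P hN hm hP z hz a b ha hb
  have hγd : ∀ y, HasFDerivAt γ (fderiv ℝ γ y) y := fun y =>
    (hγ.differentiable (by simp)).differentiableAt.hasFDerivAt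
  have hΦd : ∀ y, HasFDerivAt Φ (fderiv ℝ Φ y) y := fun y =>
    (hΦ.differentiable (by simp)).differentiableAt.hasFDerivAt
  have hηd : ∀ y, HasFDerivAt η (fderiv ℝ η y) y := fun y =>
    (hη.differentiable (by simp)).differentiableAt.hasFDerivAt
  have hΦγ : ContDiff ℝ ∞ (Φ ∘ γ) := hΦ.comp hγ
  have hηγ : ContDiff ℝ ∞ (η ∘ γ) := hη.comp hγ
  have e1 : ∀ y v, fderiv ℝ (Φ ∘ γ) y v = fderiv ℝ Φ (γ y) (fderiv ℝ γ y v) := by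
    intro y v
    rw [((hΦd (γ y)).comp y (hγd y)).fderiv]; rfl
  have e2 : ∀ y v, fderiv ℝ (η ∘ γ) y v = fderiv ℝ η (γ y) (fderiv ℝ γ y v) := by
    intro y v
    rw [((hηd (γ y)).comp y (hγd y)).fderiv]; rfl
  -- tangent vectors
  have htan : ∀ y v, IsTan (CT N) (γ y) (fderiv ℝ γ y v) := by
    intro y v
    have h1 : HasDerivAt (fun t : ℝ => y + t • v) v 0 := by
      simpa using ((hasDerivAt_id (0 : ℝ)).smul_const v).const_add y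
    refine ⟨fun t => γ (y + t • v), ?_, Eventually.of_forall fun t => hγN _, by simp, ?_⟩
    · have : ContDiff ℝ ∞ (fun t : ℝ => γ (y + t • v)) := hγ.comp (by fun_prop)
      exact this.contDiffAt
    · have h2 : HasFDerivAt γ (fderiv ℝ γ y) ((fun t : ℝ => y + t • v) 0) := by
        simpa using hγd y
      exact (h2.comp_hasDerivAt (0 : ℝ) h1).deriv
  have key : ∀ v : ℝ × ℝ, (fun y => (⟪((Φ ∘ γ) y).2, (fderiv ℝ (Φ ∘ γ) y v).1⟫ : ℝ)) =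
      fun y => (⟪(γ y).2, (fderiv ℝ γ y v).1⟫ : ℝ) + fderiv ℝ (η ∘ γ) y v := by
    intro v
    funext y
    have h1 := hform (γ y) (hγN y) _ (htan y v)
    rw [e1, e2, ← h1]
    simp only [Function.comp_apply]
    ring
  have hη2 : ContDiff ℝ ∞ (fderiv ℝ (η ∘ γ)) := hηγ.fderiv_right (m := ∞) (by simp)
  have hη3 : HasFDerivAt (fderiv ℝ (η ∘ γ)) (fderiv ℝ (fderiv ℝ (η ∘ γ)) (0, 0)) (0, 0) :=
    (hη2.differentiable (by simp)).differentiableAt.hasFDerivAt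
  have key2 : ∀ v w : ℝ × ℝ,
      fderiv ℝ (fun y => (⟪((Φ ∘ γ) y).2, (fderiv ℝ (Φ ∘ γ) y v).1⟫ : ℝ)) (0, 0) w =
      fderiv ℝ (fun y => (⟪(γ y).2, (fderiv ℝ γ y v).1⟫ : ℝ)) (0, 0) w +
        fderiv ℝ (fderiv ℝ (η ∘ γ)) (0, 0) w v := by
    intro v w
    rw [key v]
    have h1 : HasFDerivAt (fun y => fderiv ℝ (η ∘ γ) y v) _ (0, 0) :=
      hη3.clm_apply (hasFDerivAt_const v (0, 0))
    have h2 := ((surf_diff γ hγ v (0, 0)).hasFDerivAt.add h1).fderiv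
    have h3 : fderiv ℝ (fun y => (⟪(γ y).2, (fderiv ℝ γ y v).1⟫ : ℝ) + fderiv ℝ (η ∘ γ) y v)
        (0, 0) = _ := h2
    rw [h3]
    simp
  have o1 := surf_om (Φ ∘ γ) hΦγ (0, 0) (0, 1) (1, 0)
  have o2 := surf_om γ hγ (0, 0) (0, 1) (1, 0)
  rw [key2, key2] at o1
  have hsym : fderiv ℝ (fderiv ℝ (η ∘ γ)) (0, 0) (1, 0) (0, 1) =
      fderiv ℝ (fderiv ℝ (η ∘ γ)) (0, 0) (0, 1) (1, 0) :=
    (hηγ.contDiffAt.isSymmSndFDerivAt (by simpa using two_le_infty)) (1, 0) (0, 1)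
  rw [e1, e1, hγa, hγb, hγ0] at o1
  rw [hγa, hγb] at o2
  linarith

end Pool.Agent.D0H70.NG
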